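import Pool.Agent.H32.KNS.StaA

/-!
# The start of the walk for the class of the bodies

At the window of all digits every family has the label given by the cell of the point: the ball of
radius `2 ^ (C₁ - J)`, with integer values known from the cell. Its potential is
`(m + 1) J log 2 - H(X_J, T | Z)`, up to a constant.
-/

set_option autoImplicit false

namespace Pool.GC

open Finset Real MvPolynomial
open Pool.LAT (Bd Sp)
open Pool.KNH (LA LB Ln Ex_mono)
open Pool.SH (lpos)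
open Pool.GEN (pnt)
open Pool.BJ (dM mnr jm JF Ix mon le_jm jm_le jm_nonneg)
open Pool.KNB (nJ mo cmb ev Jx)
open Pool.Agent.H49.Ent Pool.Agent.H32.Dense Pool.STK Pool.KA

variable {m E : ℕ}

/-- The trivial coarse cell. -/
noncomputable def cc0 (P : Par m E) (J : ℕ) : Cc m E where
  c := ⟨bst (nJ m E) P.top, fun _ _ => 0⟩
  w := 0
  t := 0
  mx := J
  fl := P.fl J
  sz := 0

/-- The label of the cell of the point. -/
noncomputable def bpt (m E J C₁ : ℕ) (t : ℕ) (q : Fin m → ℤ) (s : ℤ) : Vl m E where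
  c := ⟨bst (nJ m E) ((C₁ : ℤ) - J), fun _ => cds m E J C₁ t q⟩
  al := 0
  sb := 0
  sz := s

theorem Ex_mono' {Ω : Type} [Fintype Ω] {p : Ω → ℝ} (hp : IsLaw p) {f : Ω → ℝ} {c : ℝ}
    (h : ∀ ω, 0 < p ω → f ω ≤ c) : Ex p f ≤ c := by
  have h1 := Ex_mono hp.nonneg (f := f) (h := fun _ => c) h
  rwa [Ex_const hp.sum_one] at h1

/-- **The start of the walk.** -/
theorem sta (m E : ℕ) (hE : 1 ≤ E) : ∃ C : ℕ, ∀ P : Par m E, C ≤ P.top → 1 ≤ P.cd →
    ∃ C' : ℝ, 0 ≤ C' ∧ ∀ (J : ℕ) (F : Fam m J), (∀ ω k, |F.u ω k| ≤ 2) →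
    ∃ r₀ : ℕ, (J : ℝ) + r₀ ≤ C' * (J + 1) ∧ ∀ (θ : F.ζ → Vl m E → ℝ) (d : ℝ),
      (∀ z v, v.al = 0 → (∀ n : ℝ, 1 ≤ n →
        P.cls.lgv n J (cc0 P J) v ≤ Real.log (J + r₀ + 2)) → J * P.cls.dp J v ≤ 1 → θ z v ≤ d) →
      P.cls.Get F J (fun _ => cc0 P J) J 0 θ
        ((m + 1) * (J * Real.log 2) - CH F.p (fun ω => (F.X J ω, F.T ω)) F.Z - C' - d) := by
  classical
  obtain ⟨κ, hκ⟩ := mo_bd m E
  obtain ⟨C₁, hC₁⟩ := pow_unbounded_of_one_lt (6 * ((m : ℝ) + 1) * 2 ^ κ)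
    (show (1 : ℝ) < 2 by norm_num)
  refine ⟨C₁ + κ, fun P hP hcd => ?_⟩
  have hl2 : 0 < Real.log 2 := Real.log_pos (by norm_num)
  have hM0 : 0 ≤ P.om * (Real.log 2 * ∑ i, P.M i * (C₁ : ℝ)) :=
    mul_nonneg P.om_nonneg (mul_nonneg hl2.le (Finset.sum_nonneg fun i _ =>
      mul_nonneg (P.M_nonneg i) (Nat.cast_nonneg _)))
  have hlk : 0 ≤ Real.log ((κ : ℝ) + 2) := Real.log_nonneg (by
    have : (0 : ℝ) ≤ κ := Nat.cast_nonneg _
    linarith)
  obtain ⟨C', hC'⟩ : ∃ C' : ℝ, C' = (2 + P.top + m + m * C₁ + κ) + (m * C₁ * Real.log 2 +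
      P.om * (Real.log 2 * ∑ i, P.M i * (C₁ : ℝ)) + Real.log (κ + 2)) := ⟨_, rfl⟩
  have hC'0 : 0 ≤ C' := by
    rw [hC']
    positivity
  refine ⟨C', hC'0, fun J F hu => ?_⟩
  obtain ⟨r₀, hr₀⟩ : ∃ r₀ : ℕ, r₀ = P.top + J + m * (J + C₁) + κ := ⟨_, rfl⟩
  refine ⟨r₀, ?_, fun θ d hθ => ?_⟩
  · rw [hr₀, hC']
    push_cast
    have h1 : (0 : ℝ) ≤ P.top * J := by positivity
    have h2 : (0 : ℝ) ≤ m * C₁ * J := by positivity
    have h3 : (0 : ℝ) ≤ κ * J := by positivity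
    have h4 : (0 : ℝ) ≤ (m * C₁ * Real.log 2 +
      P.om * (Real.log 2 * ∑ i, P.M i * (C₁ : ℝ)) + Real.log (κ + 2)) * (J + 1) := by
      positivity
    have h5 : (0 : ℝ) ≤ m := Nat.cast_nonneg _
    linarith only [h1, h2, h3, h4, h5]
  have hJ0 : (0 : ℝ) < 2 ^ J := by positivity
  -- the lines
  have hx : ∀ ω i, |(F.l ω).1 i| ≤ 2 ∧ |(F.l ω).2 i| ≤ 2 := fun ω i =>
    ⟨hu ω i, (F.dir ω i).trans (by norm_num)⟩
  have hT : ∀ ω, F.T ω / 2 ^ (J - J) = F.T ω := fun ω => by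
    rw [Nat.sub_self, pow_zero, Nat.div_one]
  have hX : ∀ ω, (fun k => ⌊(2 : ℝ) ^ J * lpos (F.l ω) ((F.T ω : ℝ) / 2 ^ J) k⌋) = F.X J ω :=
    fun ω => rfl
  obtain ⟨B, hB⟩ : ∃ B : Bd (nJ m E), B = bst (nJ m E) ((C₁ : ℤ) - J) := ⟨_, rfl⟩
  -- the size
  obtain ⟨sz, hsz⟩ : ∃ sz : F.Ω → ℤ, sz = fun ω => Int.log 2 (SJ B J (F.T ω) (F.l ω)) :=
    ⟨_, rfl⟩
  have hSJ : ∀ ω, (((2 : ℝ) ^ ((C₁ : ℤ) - J))⁻¹) ^ m ≤ SJ B J (F.T ω) (F.l ω) ∧
      SJ B J (F.T ω) (F.l ω) ≤ (((2 : ℝ) ^ ((C₁ : ℤ) - J))⁻¹) ^ m * 2 ^ κ := by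
    intro ω
    rw [hB]
    exact SJ_bst hE (fun b hb => (hκ b hb).2.2) _ (F.tim ω) (hx ω)
  have he : (((2 : ℝ) ^ ((C₁ : ℤ) - J))⁻¹) ^ m = 2 ^ ((m : ℤ) * (J - C₁)) := by
    rw [← zpow_neg, ← zpow_natCast, ← zpow_mul]
    congr 1
    ring
  have hSpos : ∀ ω, 0 < SJ B J (F.T ω) (F.l ω) := fun ω =>
    lt_of_lt_of_le (by positivity) (hSJ ω).1
  have hz1 : ∀ ω, (2 : ℝ) ^ sz ω ≤ SJ B J (F.T ω) (F.l ω) := by
    intro ω
    rw [hsz]
    exact Int.zpow_log_le_self (by norm_num) (hSpos ω)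
  have hz2 : ∀ ω, SJ B J (F.T ω) (F.l ω) < 2 ^ (sz ω + 1) := by
    intro ω
    rw [hsz]
    exact Int.lt_zpow_succ_log_self (by norm_num) _
  have hz3 : ∀ ω, (m : ℤ) * (J - C₁) ≤ sz ω := by
    intro ω
    have h1 := (hSJ ω).1.trans_lt (hz2 ω)
    rw [he] at h1
    have h2 := (zpow_lt_zpow_iff_right₀ (show (1 : ℝ) < 2 by norm_num)).1 h1
    omega
  have hz4 : ∀ ω, sz ω ≤ (m : ℤ) * (J - C₁) + κ := by
    intro ω
    have h1 := (hz1 ω).trans (hSJ ω).2
    rw [he, ← zpow_natCast, ← zpow_add₀ (by norm_num)] at h1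
    exact (zpow_le_zpow_iff_right₀ (show (1 : ℝ) < 2 by norm_num)).1 h1
  -- the label
  obtain ⟨b, hb⟩ : ∃ b : F.Ω → Vl m E, b = fun ω => bpt m E J C₁ (F.T ω) (F.X J ω) (sz ω) :=
    ⟨_, rfl⟩
  have hflJ : (J : ℤ) ≤ P.fl J := by
    rcases Nat.eq_zero_or_pos J with h0 | h0
    · rw [h0]
      exact_mod_cast Nat.zero_le _
    · have h1 := P.fl_large J h0
      have h2 : (1 : ℝ) ≤ J := by exact_mod_cast h0
      have h3 : (J : ℝ) ≤ P.fl J := by nlinarith
      exact_mod_cast h3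
  have hok : P.cls.Ok F J (fun _ => cc0 P J) J 0 b := by
    intro ω _
    show okv P J J (cc0 P J) J 0 (F.l ω) (F.T ω / 2 ^ (J - J)) (b ω)
    rw [hT, hb]
    have hsw : (bpt m E J C₁ (F.T ω) (F.X J ω) (sz ω)).sw (F.T ω) = F.T ω := by
      show F.T ω * 2 ^ 0 + 0 = F.T ω
      rw [pow_zero, Nat.mul_one, Nat.add_zero]
    refine { box := hx ω, cw := Nat.zero_le _, win := ?_, tlt := F.tim ω, sb := ?_,
             wJ := le_refl _, wk := ?_, wm := le_refl _, mem := ?_, memc := ?_, le := ?_,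
             top := ?_, topc := fun i => le_refl _, fl := ?_, flc := le_refl _, sz := ?_,
             sz' := ?_ }
    · show F.T ω / 2 ^ (J - 0) = 0
      rw [Nat.sub_zero]
      exact Nat.div_eq_of_lt (F.tim ω)
    · show 0 < 2 ^ 0
      norm_num
    · show J + 0 ≤ 0 + J
      omega
    · rw [hsw]
      intro i a
      have h1 := val_cds (fun b hb => (hκ b hb).2.1) hC₁.le (F.tim ω) (hx ω)
        (nod_mem32 (dD m E) J (F.T ω) i) a
      rw [hX] at h1
      exact h1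
    · intro i a
      show |(bst (nJ m E) P.top).fn a (phl E (F.l ω) (nod (dD m E) 0 0 i)) - ((0 : ℤ) : ℝ)| ≤ 2 ^ 0
      rw [bst_fn, phl_app32, Int.cast_zero, sub_zero, pow_zero]
      obtain ⟨h0, h1⟩ := win_mem (by norm_num : (0 : ℕ) < 2 ^ 0) (nod_mem32 (dD m E) 0 0 i)
      have h2 := (hκ _ fun o => (pnt_le (hx ω) h0 h1 o).trans (by norm_num)).1 a
      rw [abs_mul, abs_of_pos (by positivity), inv_mul_le_iff₀ (by positivity), mul_one]
      refine h2.trans ?_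
      rw [← zpow_natCast]
      exact zpow_le_zpow_right₀ (by norm_num) (by exact_mod_cast le_trans (by omega) hP)
    · show (bst (nJ m E) ((C₁ : ℤ) - J)).le (2 ^ 0) (bst (nJ m E) P.top)
      refine bst_le ?_
      have : ((C₁ + κ : ℕ) : ℤ) ≤ P.top := by exact_mod_cast hP
      push_cast at this ⊢
      omega
    · intro i
      show (C₁ : ℤ) - J ≤ P.top
      have : ((C₁ + κ : ℕ) : ℤ) ≤ P.top := by exact_mod_cast hP
      push_cast at this
      omega
    · intro i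
      show -((P.fl J : ℤ) + 0) ≤ (C₁ : ℤ) - J
      omega
    · rw [hsw]
      have h1 := hz1 ω
      rw [hB] at h1
      exact h1
    · rw [hsw]
      have h1 := hz2 ω
      rw [hB] at h1
      exact h1
  -- the penalty
  have hpen : ∀ ω, θ (F.Z ω) (b ω) ≤ d := by
    intro ω
    refine hθ _ _ ?_ ?_ ?_
    · rw [hb]
      rfl
    · intro n hn
      have hhx : P.cls.hx (cc0 P J) (b ω) ≤ r₀ := by
        refine P.hx_le ⟨⟨?_, ?_⟩, ?_⟩
        · rw [hb]
          refine bst_le ?_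
          rw [hr₀]
          push_cast
          have h1 : (0 : ℤ) ≤ m * (J + C₁) := by positivity
          omega
        · rw [hb]
          refine bst_le ?_
          have : ((C₁ + κ : ℕ) : ℤ) ≤ P.top := by exact_mod_cast hP
          have h1 : (0 : ℤ) ≤ r₀ := Int.natCast_nonneg _
          push_cast at this
          omega
        · rw [hb]
          show |(0 : ℤ) - sz ω| ≤ P.cs * r₀
          have h3 := hz3 ω
          have h4 := hz4 ω
          have h5 : (1 : ℤ) ≤ P.cs := by exact_mod_cast P.cs_pos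
          have h6 : (r₀ : ℤ) ≤ P.cs * r₀ := by
            nlinarith [Int.natCast_nonneg r₀]
          refine le_trans ?_ h6
          rw [hr₀, zero_sub, abs_neg, abs_le]
          push_cast
          have h7 : (m : ℤ) * (J - C₁) = m * J - m * C₁ := by ring
          have h8 : (0 : ℤ) ≤ m * J := by positivity
          have h9 : (0 : ℤ) ≤ m * C₁ := by positivity
          rw [h7] at h3 h4
          have h10 : (m : ℤ) * (J + C₁) = m * J + m * C₁ := by ring
          rw [h10]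
          constructor <;> omega
      unfold LB.lgv
      have ha : P.cls.age (b ω) = 0 := by
        rw [hb]
        rfl
      rw [ha, Nat.cast_zero, add_zero]
      have h1 : (P.cls.hx (cc0 P J) (b ω) : ℝ) ≤ r₀ := by exact_mod_cast hhx
      have h2 : (0 : ℝ) ≤ P.cls.hx (cc0 P J) (b ω) := Nat.cast_nonneg _
      have h3 : ((J : ℝ) + P.cls.hx (cc0 P J) (b ω)) / n ≤ J + r₀ := by
        rw [div_le_iff₀ (by linarith)]
        have h4 : (0 : ℝ) ≤ J := Nat.cast_nonneg _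
        have h5 : (0 : ℝ) ≤ r₀ := Nat.cast_nonneg _
        nlinarith
      refine Real.log_le_log ?_ (by linarith)
      have h4 : (0 : ℝ) ≤ ((J : ℝ) + P.cls.hx (cc0 P J) (b ω)) / n :=
        div_nonneg (by positivity) (by linarith)
      linarith
    · have hdep : dep (b ω).c.B ≤ J := by
        rw [hb]
        refine Finset.sup_le fun i _ => ?_
        show (-((C₁ : ℤ) - J)).toNat ≤ J
        omega
      show (J : ℝ) * (P.cd * (dep (b ω).c.B : ℝ) / P.fl J) ≤ 1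
      rcases Nat.eq_zero_or_pos J with h0 | h0
      · rw [h0]
        simp
      · have h1 := P.fl_large J h0
        have h2 : (1 : ℝ) ≤ J := by exact_mod_cast h0
        have h3 : (0 : ℝ) < P.fl J := by nlinarith
        have h4 : (dep (b ω).c.B : ℝ) ≤ J := by exact_mod_cast hdep
        rw [← mul_div_assoc, div_le_one h3]
        refine le_trans ?_ h1
        have h5 : (0 : ℝ) ≤ P.cd := P.cd_nonneg
        calc (J : ℝ) * (P.cd * (dep (b ω).c.B : ℝ)) = P.cd * (J * (dep (b ω).c.B : ℝ)) := by ring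
          _ ≤ P.cd * (J * J) := mul_le_mul_of_nonneg_left
              (mul_le_mul_of_nonneg_left h4 (by linarith)) h5
          _ = P.cd * (J : ℝ) ^ 2 := by ring
  -- the entropy
  have hent : CH F.p (fun ω => (F.T ω / 2 ^ (J - J), b ω)) F.Z ≤
      CH F.p (fun ω => (F.X J ω, F.T ω)) F.Z + Real.log (κ + 2) := by
    obtain ⟨N, hN⟩ : ∃ N : F.Ω → Fin (κ + 2), ∀ ω, ((N ω : ℕ) : ℤ) =
        sz ω - (m : ℤ) * (J - C₁) := by
      refine ⟨fun ω => ⟨(sz ω - (m : ℤ) * (J - C₁)).toNat, ?_⟩, fun ω => ?_⟩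
      · have h1 := hz4 ω
        omega
      · have h1 := hz3 ω
        show (((sz ω - (m : ℤ) * (J - C₁)).toNat : ℕ) : ℤ) = _
        omega
    have h1 : CH F.p (fun ω => (F.T ω / 2 ^ (J - J), b ω)) F.Z ≤
        CH F.p (fun ω => ((F.X J ω, F.T ω), N ω)) F.Z := by
      refine CH_mono_left F.isLaw.nonneg ?_
      intro ω ω' _ _ h
      have h2 := Prod.ext_iff.1 (Prod.ext_iff.1 h).1
      have h3 := Prod.ext_iff.1 h2.1
      have h4 : F.X J ω = F.X J ω' := h3.1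
      have h5 : F.T ω = F.T ω' := h3.2
      have h6 : N ω = N ω' := h2.2
      have h7 : sz ω = sz ω' := by
        have h8 := hN ω
        have h9 := hN ω'
        rw [h6] at h8
        omega
      show (F.T ω / 2 ^ (J - J), b ω) = (F.T ω' / 2 ^ (J - J), b ω')
      rw [hb]
      simp only [h4, h5, h7]
    have h2 := CH_le_add F.isLaw.nonneg (fun ω => ((F.X J ω, F.T ω), N ω))
      (fun ω => (F.X J ω, F.T ω)) F.Z
    have h3 : CH F.p (fun ω => ((F.X J ω, F.T ω), N ω))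
        (fun ω => ((F.X J ω, F.T ω), F.Z ω)) ≤ Real.log (κ + 2) := by
      refine (CH_le_card F.isLaw.nonneg F.isLaw.sum_one (fun ω => ((F.X J ω, F.T ω), N ω))
        (fun ω => ((F.X J ω, F.T ω), F.Z ω))
        (fun w => univ.image fun i : Fin (κ + 2) => (w.1, i)) fun ω _ =>
          Finset.mem_image_of_mem (fun i : Fin (κ + 2) => ((F.X J ω, F.T ω), i))
            (Finset.mem_univ (N ω))).trans ?_
      refine Ex_mono' F.isLaw fun ω _ => ?_
      have h5 : (univ.image fun i : Fin (κ + 2) => ((F.X J ω, F.T ω), i)).card ≤ κ + 2 := by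
        refine Finset.card_image_le.trans ?_
        rw [Finset.card_univ, Fintype.card_fin]
      have h6 : 0 < (univ.image fun i : Fin (κ + 2) => ((F.X J ω, F.T ω), i)).card :=
        Finset.card_pos.2 ⟨_, Finset.mem_image_of_mem _ (Finset.mem_univ (N ω))⟩
      refine Real.log_le_log (by exact_mod_cast h6) ?_
      exact_mod_cast h5
    linarith
  -- the potential
  have hpsi : (m + 1) * (J * Real.log 2) - CH F.p (fun ω => (F.X J ω, F.T ω)) F.Z - C' - d ≤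
      P.cls.Psi F θ J b := by
    have hΨ : P.cls.Psi F θ J b = (J + m * J) * Real.log 2 -
        Ex F.p (fun ω => P.cls.pot J J (F.l ω) (F.T ω / 2 ^ (J - J)) (b ω) + θ (F.Z ω) (b ω)) -
        CH F.p (fun ω => (F.T ω / 2 ^ (J - J), b ω)) F.Z := rfl
    rw [hΨ]
    have h1 : Ex F.p (fun ω => P.cls.pot J J (F.l ω) (F.T ω / 2 ^ (J - J)) (b ω) +
        θ (F.Z ω) (b ω)) ≤ m * C₁ * Real.log 2 +
          P.om * (Real.log 2 * ∑ i, P.M i * (C₁ : ℝ)) + d := by
      refine Ex_mono' F.isLaw fun ω _ => add_le_add ?_ (hpen ω)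
      show P.pot J (b ω) ≤ _
      rw [hb]
      unfold Par.pot Par.vol
      have h3 := hz3 ω
      have h4 : (m : ℝ) * (J - C₁) ≤ (sz ω : ℝ) := by exact_mod_cast h3
      have h5 : ∑ i, P.M i * (((bst (nJ m E) ((C₁ : ℤ) - J)).r i : ℤ) : ℝ) ≤
          ∑ i, P.M i * (C₁ : ℝ) := by
        refine Finset.sum_le_sum fun i _ => mul_le_mul_of_nonneg_left ?_ (P.M_nonneg i)
        show (((C₁ : ℤ) - J : ℤ) : ℝ) ≤ C₁
        push_cast
        have : (0 : ℝ) ≤ J := Nat.cast_nonneg _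
        linarith
      have h6 := mul_le_mul_of_nonneg_left (mul_le_mul_of_nonneg_left h5 hl2.le) P.om_nonneg
      refine add_le_add ?_ h6
      show ((m : ℝ) * J - (sz ω : ℝ) + m * ((0 : ℕ) : ℝ)) * Real.log 2 ≤ _
      rw [Nat.cast_zero, mul_zero, add_zero]
      refine mul_le_mul_of_nonneg_right ?_ hl2.le
      linarith
    rw [hC']
    have h7 : (0 : ℝ) ≤ 2 + P.top + m + m * C₁ + κ := by positivity
    have e1 : ((m : ℝ) + 1) * (J * Real.log 2) = (J + m * J) * Real.log 2 := by ring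
    rw [e1]
    linarith
  exact (LA.Get.self F θ hok).mono_x (le_refl _) hpsi

end Pool.GC
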