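import Pool.Agent.H96.GEO.Cls

/-!
# The ball as a body of the class

The coordinates of a line in a window of length `2 ^ (-J)`, for the body whose sides are all
`2 ^ (C₁ - J)`: the values of the functions are known from the cell of the point up to errors at
most one, and the Jacobian of the body along the line is `2 ^ (m (J - C₁))`, up to a constant.
-/

set_option autoImplicit false

namespace Pool.GC

open Finset Real MvPolynomial
open Pool.LAT (Bd Sp)
open Pool.KNH (LA LB Ln)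
open Pool.SH (lpos)
open Pool.GEN (pnt)
open Pool.BJ (dM mnr jm JF Ix mon le_jm jm_le jm_nonneg)
open Pool.KNB (nJ mo cmb ev Jx)

variable {m E : ℕ}

/-- Bounds for finitely many continuous functions on a box. -/
theorem bd_cont {ι σ : Type} [Finite ι] [Fintype σ] (g : ι → (σ → ℝ) → ℝ)
    (hg : ∀ i, Continuous (g i)) (R : ℝ) :
    ∃ K : ℝ, 1 ≤ K ∧ ∀ i b, (∀ o, |b o| ≤ R) → |g i b| ≤ K := by
  classical
  cases nonempty_fintype ι
  have h1 : ∀ i, ∃ K : ℝ, ∀ b : σ → ℝ, (∀ o, |b o| ≤ R) → |g i b| ≤ K := by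
    intro i
    have hK : IsCompact (Set.pi Set.univ fun _ : σ => Set.Icc (-R) R) :=
      isCompact_univ_pi fun _ => isCompact_Icc
    obtain ⟨K, hK⟩ := hK.exists_bound_of_continuousOn (hg i).continuousOn
    refine ⟨K, fun b hb => ?_⟩
    have h2 := hK b (by
      intro o _
      exact abs_le.1 (hb o))
    rwa [Real.norm_eq_abs] at h2
  choose K hK using h1
  refine ⟨1 + ∑ i, |K i|, by
    have : 0 ≤ ∑ i, |K i| := Finset.sum_nonneg fun _ _ => abs_nonneg _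
    linarith, fun i b hb => ?_⟩
  have h2 := Finset.single_le_sum (f := fun i => |K i|) (fun _ _ => abs_nonneg _)
    (Finset.mem_univ i)
  have h3 := hK i b hb
  have h4 := le_abs_self (K i)
  linarith

/-- The bounds for the monomials, their derivatives and the minors. -/
theorem mo_bd (m E : ℕ) : ∃ κ : ℕ, ∀ b : Option (Fin m) → ℝ, (∀ o, |b o| ≤ 8) →
    (∀ a : Fin (nJ m E), |eval b (mo a)| ≤ 2 ^ κ) ∧
    (∀ (a : Fin (nJ m E)) o, |eval b (pderiv o (mo a))| ≤ 2 ^ κ) ∧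
    ∀ S : Fin m → Fin (nJ m E), |mnr (dM mo b) S| ≤ 2 ^ κ := by
  obtain ⟨K₁, h1, H1⟩ := bd_cont (ι := Fin (nJ m E)) (σ := Option (Fin m))
    (fun a b => eval b (mo a)) (fun a => MvPolynomial.continuous_eval _) 8
  obtain ⟨K₂, h2, H2⟩ := bd_cont (ι := Fin (nJ m E) × Option (Fin m)) (σ := Option (Fin m))
    (fun a b => eval b (pderiv a.2 (mo a.1))) (fun a => MvPolynomial.continuous_eval _) 8
  obtain ⟨K₃, h3, H3⟩ := bd_cont (ι := Fin m → Fin (nJ m E)) (σ := Option (Fin m))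
    (fun S b => mnr (dM mo b) S) (fun S => by
      unfold mnr dM
      refine Continuous.matrix_det ?_
      refine continuous_matrix fun i j => ?_
      simp only [Matrix.of_apply]
      exact MvPolynomial.continuous_eval _) 8
  obtain ⟨κ, hκ⟩ := pow_unbounded_of_one_lt (K₁ + K₂ + K₃) (show (1 : ℝ) < 2 by norm_num)
  refine ⟨κ, fun b hb => ⟨fun a => (H1 a b hb).trans ?_, fun a o => (H2 (a, o) b hb).trans ?_,
    fun S => (H3 S b hb).trans ?_⟩⟩ <;> linarith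

/-! ### The ball -/

/-- The ball with the half side `2 ^ r`. -/
noncomputable def bst (N : ℕ) (r : ℤ) : Bd N where
  e := EuclideanSpace.basisFun (Fin N) ℝ
  r := fun _ => r
  anti := fun _ _ _ => le_rfl

theorem bst_s (N : ℕ) (r : ℤ) (a : Fin N) : (bst N r).s a = 2 ^ r := rfl

theorem bst_inner (N : ℕ) (r : ℤ) (a : Fin N) (x : Sp N) :
    inner ℝ ((bst N r).e a) x = x a := by
  show inner ℝ (EuclideanSpace.basisFun (Fin N) ℝ a) x = x a
  rw [EuclideanSpace.basisFun_apply]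
  simp [EuclideanSpace.inner_single_left]

theorem bst_fn (N : ℕ) (r : ℤ) (a : Fin N) (x : Sp N) :
    (bst N r).fn a x = (2 ^ r)⁻¹ * x a := by
  rw [Bd.fn_apply, bst_inner, bst_s]

theorem bst_le {N : ℕ} {r r' : ℤ} {a : ℕ} (h : r ≤ r' + a) :
    (bst N r).le (2 ^ a) (bst N r') := by
  intro x hx i
  have h1 : |x i| ≤ 2 ^ r := by
    have := hx i
    rwa [bst_inner, bst_s] at this
  show |inner ℝ ((bst N r').e i) x| ≤ 2 ^ a * (bst N r').s i
  rw [bst_inner, bst_s]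
  refine h1.trans ?_
  have h2 : (2 : ℝ) ^ r ≤ 2 ^ (r' + a) := zpow_le_zpow_right₀ (by norm_num) h
  rwa [zpow_add₀ (by norm_num), zpow_natCast, mul_comm] at h2

theorem phl_app32 (x : Ln m) (s : ℝ) (a : Fin (nJ m E)) :
    phl E x s a = eval (pnt s (lpos x s)) (mo a) := rfl

/-- The functions of the ball. -/
theorem FB_bst (r : ℤ) (a : Fin (nJ m E)) :
    FB (bst (nJ m E) r) a = C (((2 : ℝ) ^ r)⁻¹) * mo a := by
  classical
  unfold FB cmb mB
  rw [Finset.sum_eq_single a]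
  · congr 2
    show ((bst (nJ m E) r).s a)⁻¹ * (EuclideanSpace.basisFun (Fin (nJ m E)) ℝ a) a = _
    rw [EuclideanSpace.basisFun_apply]
    simp [bst_s]
  · intro b _ hb
    have h1 : (Matrix.of fun a b => ((bst (nJ m E) r).s a)⁻¹ * ((bst (nJ m E) r).e a) b) a b =
        0 := by
      show ((bst (nJ m E) r).s a)⁻¹ * (EuclideanSpace.basisFun (Fin (nJ m E)) ℝ a) b = 0
      rw [EuclideanSpace.basisFun_apply]
      simp [hb]
    rw [h1, C_0, zero_mul]
  · intro h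
    exact absurd (Finset.mem_univ a) h

theorem dM_bst (r : ℤ) (b : Option (Fin m) → ℝ) :
    dM (FB (bst (nJ m E) r)) b = (((2 : ℝ) ^ r)⁻¹) • dM mo b := by
  ext a j
  rw [Matrix.smul_apply, smul_eq_mul]
  show eval b (pderiv (some j) (FB (bst (nJ m E) r) a)) = _ * eval b (pderiv (some j) (mo a))
  rw [FB_bst, pderiv_C_mul, map_mul, eval_C]

theorem mnr_smul {N : ℕ} (c : ℝ) (M : Matrix (Fin N) (Fin m) ℝ) (S : Fin m → Fin N) :
    mnr (c • M) S = c ^ m * mnr M S := by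
  unfold mnr
  have h1 : (Matrix.of fun i j => (c • M) (S i) j) = c • (Matrix.of fun i j => M (S i) j) := by
    ext i j
    simp
  rw [h1, Matrix.det_smul, Fintype.card_fin]

/-- The index of a coordinate. -/
noncomputable def ico (hE : 1 ≤ E) (k : Fin m) : Fin (nJ m E) :=
  Fintype.equivFin (Jx m E) ⟨fun o => if o = some k then ⟨1, by omega⟩ else ⟨0, by omega⟩,
    ⟨k, by simp⟩⟩

theorem mo_ico (hE : 1 ≤ E) (k : Fin m) : mo (ico hE k) = X (some k) := by
  classical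
  unfold mo ico
  rw [Equiv.symm_apply_apply]
  unfold mon
  rw [Finset.prod_eq_single (some k)]
  · simp
  · intro o _ ho
    simp [ho]
  · intro h
    exact absurd (Finset.mem_univ _) h

theorem mnr_ico (hE : 1 ≤ E) (b : Option (Fin m) → ℝ) :
    mnr (dM (mo : Fin (nJ m E) → _) b) (ico hE) = 1 := by
  classical
  unfold mnr
  have h1 : (Matrix.of fun i j => dM (mo : Fin (nJ m E) → _) b (ico hE i) j) =
      (1 : Matrix (Fin m) (Fin m) ℝ) := by
    ext i j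
    show eval b (pderiv (some j) (mo (ico hE i))) = _
    rw [mo_ico, pderiv_X, Matrix.one_apply]
    by_cases h : i = j
    · subst h
      simp
    · have h2 : (some i : Option (Fin m)) ≠ some j := fun h3 => h (Option.some.inj h3)
      simp [h, h2]
  rw [h1, Matrix.det_one]

theorem JF_bst_ge (hE : 1 ≤ E) (r : ℤ) (b : Option (Fin m) → ℝ) :
    (((2 : ℝ) ^ r)⁻¹) ^ m ≤ JF (FB (bst (nJ m E) r)) b := by
  have h1 := le_jm (dM (FB (bst (nJ m E) r)) b) (ico hE)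
  rw [dM_bst, mnr_smul, mnr_ico, mul_one, abs_of_nonneg (by positivity)] at h1
  unfold JF
  rw [dM_bst]
  exact h1

theorem JF_bst_le (r : ℤ) (b : Option (Fin m) → ℝ) {K : ℝ} (hK : 0 ≤ K)
    (h : ∀ S : Fin m → Fin (nJ m E), |mnr (dM mo b) S| ≤ K) :
    JF (FB (bst (nJ m E) r)) b ≤ (((2 : ℝ) ^ r)⁻¹) ^ m * K := by
  unfold JF
  rw [dM_bst]
  refine jm_le (by positivity) fun S => ?_
  rw [mnr_smul, abs_mul, abs_of_nonneg (by positivity)]
  exact mul_le_mul_of_nonneg_left (h S) (by positivity)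

/-! ### The window -/

theorem win_mem {w t : ℕ} (ht : t < 2 ^ w) {s : ℝ} (hs : s ∈ win w t) : 0 ≤ s ∧ s ≤ 1 := by
  have h1 : ((t : ℝ) + 1) / 2 ^ w ≤ 1 := by
    rw [div_le_one (by positivity)]
    exact_mod_cast ht
  exact ⟨le_trans (by positivity) hs.1, hs.2.trans h1⟩

theorem nod_mem32 (D w t : ℕ) (i : Fin (D + 1)) : nod D w t i ∈ win w t := by
  have h1 : (0 : ℝ) ≤ (i : ℝ) / (D + 1) := by positivity
  have h2 : (i : ℝ) / (D + 1) ≤ 1 := by
    rw [div_le_one (by positivity)]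
    exact_mod_cast i.2.le
  unfold nod win
  constructor
  · exact div_le_div_of_nonneg_right (by linarith) (by positivity)
  · exact div_le_div_of_nonneg_right (by linarith) (by positivity)

theorem pnt_le {x : Ln m} (hx : ∀ i, |x.1 i| ≤ 2 ∧ |x.2 i| ≤ 2) {s : ℝ} (h0 : 0 ≤ s)
    (h1 : s ≤ 1) (o : Option (Fin m)) : |pnt s (lpos x s) o| ≤ 4 := by
  cases o with
  | none =>
    show |s| ≤ 4
    rw [abs_of_nonneg h0]
    linarith
  | some k =>
    show |x.1 k + s * x.2 k| ≤ 4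
    refine (abs_add_le _ _).trans ?_
    rw [abs_mul, abs_of_nonneg h0]
    have h2 := hx k
    nlinarith [abs_nonneg (x.2 k)]

/-- The corner of a cell. -/
noncomputable def cor (J : ℕ) (q : Fin m → ℤ) (k : Fin m) : ℝ := (q k : ℝ) / 2 ^ J

/-- The integer values of the functions at the corner. -/
noncomputable def cds (m E J C₁ : ℕ) (t : ℕ) (q : Fin m → ℤ) (a : Fin (nJ m E)) : ℤ :=
  round (((2 : ℝ) ^ ((C₁ : ℤ) - J))⁻¹ * eval (pnt ((t : ℝ) / 2 ^ J) (cor J q)) (mo a))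

/-- **The values of the functions are known from the cell of the point.** -/
theorem val_cds {κ : ℕ} (hκ : ∀ b : Option (Fin m) → ℝ, (∀ o, |b o| ≤ 8) →
    ∀ (a : Fin (nJ m E)) o, |eval b (pderiv o (mo a))| ≤ 2 ^ κ) {C₁ : ℕ}
    (hC : 6 * ((m : ℝ) + 1) * 2 ^ κ ≤ 2 ^ C₁) {J t : ℕ} (ht : t < 2 ^ J) {x : Ln m}
    (hx : ∀ i, |x.1 i| ≤ 2 ∧ |x.2 i| ≤ 2) {s : ℝ} (hs : s ∈ win J t) (a : Fin (nJ m E)) :
    |(bst (nJ m E) ((C₁ : ℤ) - J)).fn a (phl E x s) -
      cds m E J C₁ t (fun k => ⌊(2 : ℝ) ^ J * lpos x ((t : ℝ) / 2 ^ J) k⌋) a| ≤ 1 := by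
  classical
  rw [bst_fn, phl_app32]
  obtain ⟨τ, hτ⟩ : ∃ τ : ℝ, τ = (t : ℝ) / 2 ^ J := ⟨_, rfl⟩
  obtain ⟨q, hq⟩ : ∃ q : Fin m → ℤ, q = fun k => ⌊(2 : ℝ) ^ J * lpos x τ k⌋ := ⟨_, rfl⟩
  have hJ0 : (0 : ℝ) < 2 ^ J := by positivity
  have hJ1 : (1 : ℝ) / 2 ^ J ≤ 1 := by
    rw [div_le_one hJ0]
    exact one_le_pow₀ (by norm_num)
  obtain ⟨hs0, hs1⟩ := win_mem ht hs
  have hsτ : |s - τ| ≤ 1 / 2 ^ J := by
    rw [hτ, abs_le]
    have h1 := hs.1
    have h2 := hs.2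
    rw [add_div] at h2
    constructor
    · have : (0 : ℝ) ≤ 1 / 2 ^ J := by positivity
      linarith
    · linarith
  have hτ01 : 0 ≤ τ ∧ τ ≤ 1 := by
    rw [hτ]
    refine ⟨by positivity, ?_⟩
    rw [div_le_one hJ0]
    exact_mod_cast ht.le
  -- the distance of the points
  have hd : ∀ o, |pnt s (lpos x s) o - pnt τ (cor J q) o| ≤ 3 / 2 ^ J := by
    intro o
    cases o with
    | none =>
      show |s - τ| ≤ 3 / 2 ^ J
      refine hsτ.trans (div_le_div_of_nonneg_right (by norm_num) hJ0.le)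
    | some k =>
      show |lpos x s k - cor J q k| ≤ 3 / 2 ^ J
      have h1 : |lpos x s k - lpos x τ k| ≤ 2 / 2 ^ J := by
        have e : lpos x s k - lpos x τ k = (s - τ) * x.2 k := by
          unfold lpos
          ring
        rw [e, abs_mul]
        calc |s - τ| * |x.2 k| ≤ 1 / 2 ^ J * 2 :=
              mul_le_mul hsτ (hx k).2 (abs_nonneg _) (by positivity)
          _ = 2 / 2 ^ J := by ring
      have h2 : |lpos x τ k - cor J q k| ≤ 1 / 2 ^ J := by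
        have h3 := Int.floor_le ((2 : ℝ) ^ J * lpos x τ k)
        have h4 := Int.lt_floor_add_one ((2 : ℝ) ^ J * lpos x τ k)
        have e : lpos x τ k - cor J q k = ((2 : ℝ) ^ J * lpos x τ k -
            (⌊(2 : ℝ) ^ J * lpos x τ k⌋ : ℝ)) / 2 ^ J := by
          unfold cor
          rw [hq]
          field_simp
        rw [e, abs_div, abs_of_pos hJ0]
        refine div_le_div_of_nonneg_right ?_ hJ0.le
        rw [abs_le]
        constructor <;> linarith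
      calc |lpos x s k - cor J q k| ≤ |lpos x s k - lpos x τ k| + |lpos x τ k - cor J q k| :=
            abs_sub_le _ _ _
        _ ≤ 2 / 2 ^ J + 1 / 2 ^ J := add_le_add h1 h2
        _ = 3 / 2 ^ J := by ring
  have hb1 : ∀ o, |pnt s (lpos x s) o| ≤ 8 := fun o =>
    (pnt_le hx hs0 hs1 o).trans (by norm_num)
  have hb2 : ∀ o, |pnt τ (cor J q) o| ≤ 8 := by
    intro o
    have h1 := pnt_le hx hs0 hs1 o
    have h2 := hd o
    have h3 : (3 : ℝ) / 2 ^ J ≤ 3 := by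
      have : (3 : ℝ) / 2 ^ J = 3 * (1 / 2 ^ J) := by ring
      rw [this]
      linarith
    have h4 : |pnt τ (cor J q) o| ≤ |pnt s (lpos x s) o| +
        |pnt s (lpos x s) o - pnt τ (cor J q) o| := by
      have h5 := abs_sub_abs_le_abs_sub (pnt τ (cor J q) o) (pnt s (lpos x s) o)
      rw [abs_sub_comm] at h5
      linarith
    linarith
  have hc : Convex ℝ {b : Option (Fin m) → ℝ | ∀ o, |b o| ≤ 8} := by
    have e : {b : Option (Fin m) → ℝ | ∀ o, |b o| ≤ 8} =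
        Set.pi Set.univ fun _ => Set.Icc (-8 : ℝ) 8 := by
      ext b
      simp only [Set.mem_ofPred_eq, Set.mem_pi, Set.mem_univ, true_implies, Set.mem_Icc, abs_le]
    rw [e]
    exact convex_pi fun _ _ => convex_Icc _ _
  have h1 := Pool.GEN.mvt_poly (mo a : MvPolynomial (Option (Fin m)) ℝ)
    {b : Option (Fin m) → ℝ | ∀ o, |b o| ≤ 8} hc (2 ^ κ) (by positivity)
    (fun b hb o => hκ b hb a o) (pnt τ (cor J q)) (pnt s (lpos x s)) hb2 hb1
  have h2 : ‖pnt s (lpos x s) - pnt τ (cor J q)‖ ≤ 3 / 2 ^ J := by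
    rw [pi_norm_le_iff_of_nonneg (by positivity)]
    intro o
    rw [Real.norm_eq_abs]
    exact hd o
  have hcard : (Fintype.card (Option (Fin m)) : ℝ) = m + 1 := by
    rw [Fintype.card_option, Fintype.card_fin]
    push_cast
    ring
  rw [hcard] at h1
  have h3 : |eval (pnt s (lpos x s)) (mo a) - eval (pnt τ (cor J q)) (mo a)| ≤
      2 ^ κ * ((m : ℝ) + 1) * (3 / 2 ^ J) :=
    h1.trans (mul_le_mul_of_nonneg_left h2 (by positivity))
  -- the scaled difference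
  have hc1 : ((2 : ℝ) ^ ((C₁ : ℤ) - J))⁻¹ = 2 ^ J / 2 ^ C₁ := by
    rw [zpow_sub₀ (by norm_num), zpow_natCast, zpow_natCast, inv_div]
  rw [hc1]
  have h4 : |2 ^ J / 2 ^ C₁ * eval (pnt s (lpos x s)) (mo a) -
      2 ^ J / 2 ^ C₁ * eval (pnt τ (cor J q)) (mo a)| ≤ 1 / 2 := by
    rw [← mul_sub, abs_mul, abs_of_pos (by positivity : (0 : ℝ) < 2 ^ J / 2 ^ C₁)]
    calc (2 : ℝ) ^ J / 2 ^ C₁ * |eval (pnt s (lpos x s)) (mo a) -
          eval (pnt τ (cor J q)) (mo a)|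
        ≤ 2 ^ J / 2 ^ C₁ * (2 ^ κ * ((m : ℝ) + 1) * (3 / 2 ^ J)) :=
          mul_le_mul_of_nonneg_left h3 (by positivity)
      _ = 3 * ((m : ℝ) + 1) * 2 ^ κ / 2 ^ C₁ := by field_simp
      _ ≤ 1 / 2 := by
          rw [div_le_div_iff₀ (by positivity) (by norm_num)]
          linarith
  have h5 := abs_sub_round (2 ^ J / 2 ^ C₁ * eval (pnt τ (cor J q)) (mo a))
  have h6 : (cds m E J C₁ t q a : ℝ) =
      round (2 ^ J / 2 ^ C₁ * eval (pnt τ (cor J q)) (mo a)) := by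
    unfold cds
    rw [hc1, hτ]
  rw [← hτ, ← hq, h6]
  calc _ ≤ |2 ^ J / 2 ^ C₁ * eval (pnt s (lpos x s)) (mo a) -
      2 ^ J / 2 ^ C₁ * eval (pnt τ (cor J q)) (mo a)| +
      |2 ^ J / 2 ^ C₁ * eval (pnt τ (cor J q)) (mo a) -
        round (2 ^ J / 2 ^ C₁ * eval (pnt τ (cor J q)) (mo a))| := abs_sub_le _ _ _
    _ ≤ 1 / 2 + 1 / 2 := add_le_add h4 h5
    _ = 1 := by norm_num

/-- **The Jacobian of the ball.** -/
theorem SJ_bst (hE : 1 ≤ E) {κ : ℕ} (hκ : ∀ b : Option (Fin m) → ℝ, (∀ o, |b o| ≤ 8) →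
    ∀ S : Fin m → Fin (nJ m E), |mnr (dM mo b) S| ≤ 2 ^ κ) (r : ℤ) {w t : ℕ} (ht : t < 2 ^ w)
    {x : Ln m} (hx : ∀ i, |x.1 i| ≤ 2 ∧ |x.2 i| ≤ 2) :
    (((2 : ℝ) ^ r)⁻¹) ^ m ≤ SJ (bst (nJ m E) r) w t x ∧
      SJ (bst (nJ m E) r) w t x ≤ (((2 : ℝ) ^ r)⁻¹) ^ m * 2 ^ κ := by
  have hub : ∀ s ∈ win w t, JF (FB (bst (nJ m E) r)) (pnt s (lpos x s)) ≤
      (((2 : ℝ) ^ r)⁻¹) ^ m * 2 ^ κ := by
    intro s hs
    obtain ⟨h0, h1⟩ := win_mem ht hs
    exact JF_bst_le r _ (by positivity) (hκ _ fun o =>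
      (pnt_le hx h0 h1 o).trans (by norm_num))
  have hmem : ((t : ℝ) / 2 ^ w) ∈ win w t := by
    unfold win
    refine ⟨le_refl _, div_le_div_of_nonneg_right (by linarith) (by positivity)⟩
  have hbd : BddAbove ((fun s => JF (FB (bst (nJ m E) r)) (pnt s (lpos x s))) '' win w t) := by
    refine ⟨(((2 : ℝ) ^ r)⁻¹) ^ m * 2 ^ κ, ?_⟩
    rintro y ⟨s, hs, rfl⟩
    exact hub s hs
  constructor
  · exact (JF_bst_ge hE r _).trans (le_csSup hbd ⟨_, hmem, rfl⟩)
  · refine csSup_le ⟨_, ⟨_, hmem, rfl⟩⟩ ?_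
    rintro y ⟨s, hs, rfl⟩
    exact hub s hs

end Pool.GC
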