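import Pool.Agent.H32.KNS.Sta
import Pool.Agent.H53.KNW.Ends

/-!
# The start half of the ends, for the class of the bodies
-/

set_option autoImplicit false

namespace Pool.KNW

open Finset Real
open Pool.Agent.H49.Ent Pool.Agent.H32.Dense Pool.STK Pool.KA
open Pool.GC

/-- **The start of the walk** for the families with a noise. -/
theorem staCls (m E : ℕ) (hE : 1 ≤ E) : ∃ C : ℕ, ∀ P : Par m E, C ≤ P.top → 1 ≤ P.cd →
    ∀ ε : ℝ, 0 ≤ ε → StaCls P ε := by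
  obtain ⟨C, hC⟩ := sta m E hE
  refine ⟨C, fun P hP hcd ε hε => ?_⟩
  obtain ⟨C', hC'0, h⟩ := hC P hP hcd
  refine ⟨fun _ => 0, C', 0, hC'0, fun J g _ F N => ?_⟩
  obtain ⟨r₀, hr, hG⟩ := h J F N.bd
  refine ⟨fun _ => cc0 P J, J, 0, r₀, le_refl _, fun _ _ => rfl, fun _ _ => le_refl _, hr,
    fun θ d hθ => ?_⟩
  have h1 := hG θ d hθ
  have h2 : 0 ≤ ε * (J : ℝ) := mul_nonneg hε (Nat.cast_nonneg _)
  refine P.cls.sys.mono 0 le_rfl (fun z v => (add_zero _).ge) ?_ h1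
  linarith

end Pool.KNW
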